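import Pool.Agent.H89.FC.TargetsN

/-!
# MP_52e316_nt, board `fmx_modules`: row NF2
-/

set_option autoImplicit false

open MeasureTheory Set Filter NumberField
open scoped Real nonZeroDivisors

namespace Pool.Agent.H69.FC

open Pool.Agent.H31.CN Pool.Agent.H89.FM Pool.Agent.H61.FM Pool.Agent.H89.FC

theorem level_pos {K : ℕ → Type} [∀ D, Field (K D)] [∀ D, NumberField (K D)]
    {σ : ∀ D, K D →+* ℂ} {S : Finset (IX K)} {F : IX K → ℂ → ℂ} {a b : ℝ}
    (h : Fam K σ S F a b) (y : IX K) (hy : y ∈ S) : (1 : ℝ) ≤ (y.1 : ℝ) * (y.2.1 : ℝ) ^ 2 := by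
  have h1 : (1 : ℝ) ≤ (y.1 : ℝ) := by exact_mod_cast (h.iq y hy).pos
  have h2 : (1 : ℝ) ≤ (y.2.1 : ℝ) := by exact_mod_cast (h.ch y hy).pos
  nlinarith [mul_nonneg (sub_nonneg.2 h1) (sq_nonneg ((y.2.1 : ℝ)))]

theorem fam_sub {K : ℕ → Type} [∀ D, Field (K D)] [∀ D, NumberField (K D)]
    {σ : ∀ D, K D →+* ℂ} {S S' : Finset (IX K)} {F : IX K → ℂ → ℂ} {a b a' b' : ℝ}
    (h : Fam K σ S F a b) (hS : ∀ y ∈ S', y ∈ S)
    (hq : ∀ y ∈ S', a' ≤ (y.1 : ℝ) * (y.2.1 : ℝ) ^ 2 ∧ (y.1 : ℝ) * (y.2.1 : ℝ) ^ 2 ≤ b') :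
    Fam K σ S' F a' b' :=
  ⟨hq, fun y hy => h.iq y (hS y hy), fun y hy => h.ch y (hS y hy),
    fun y hy => h.lf y (hS y hy)⟩

theorem pf_FM2c (hFM1 : T_FM1c) : T_FM2c := by
  intro ε hε
  obtain ⟨C1, A, hC1, h1⟩ := hFM1 ε hε
  refine ⟨2 * C1, A, by positivity, ?_⟩
  classical
  have key : ∀ m : ℕ, ∀ (X : ℝ) (K : ℕ → Type) [∀ D, Field (K D)] [∀ D, NumberField (K D)]
      (σ : ∀ D, K D →+* ℂ) (S : Finset (IX K)) (F : IX K → ℂ → ℂ) (t : IX K → ℝ), 1 ≤ X →
      X ≤ 4 ^ m → Fam K σ S F 0 X →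
      ∑ y ∈ S, (‖F y (1 / 2 + t y * Complex.I)‖ / (1 + |t y| + |(y.2.2.1 : ℝ)|) ^ A) ^ 4 ≤
          2 * C1 * X ^ (3 / 2 + ε) := by
    intro m
    induction m with
    | zero =>
      intro X K _ _ σ S F t hX hXm hS
      rw [pow_zero] at hXm
      have hX1 : X = 1 := le_antisymm hXm hX
      subst hX1
      have hS' : Fam K σ S F (1 / 4) 1 := by
        refine fam_sub hS (fun y hy => hy) fun y hy => ⟨?_, (hS.q y hy).2⟩
        have hpos := level_pos hS y hy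
        linarith
      have h := h1 1 K σ S F t le_rfl hS'
      rw [Real.one_rpow] at h ⊢
      linarith
    | succ m ih =>
      intro X K _ _ σ S F t hX hXm hS
      have hX0 : 0 < X := by linarith
      have hXp : 0 ≤ X ^ (3 / 2 + ε) := (Real.rpow_pos_of_pos hX0 _).le
      rw [← Finset.sum_filter_add_sum_filter_not S
        (fun y : IX K => X / 4 ≤ (y.1 : ℝ) * (y.2.1 : ℝ) ^ 2)]
      have e1 : ∑ y ∈ S.filter (fun y : IX K => X / 4 ≤ (y.1 : ℝ) * (y.2.1 : ℝ) ^ 2),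
          (‖F y (1 / 2 + t y * Complex.I)‖ / (1 + |t y| + |(y.2.2.1 : ℝ)|) ^ A) ^ 4 ≤
          C1 * X ^ (3 / 2 + ε) := by
        refine h1 X K σ _ F t hX ?_
        refine fam_sub hS (fun y hy => (Finset.mem_filter.1 hy).1) fun y hy => ?_
        obtain ⟨hD1, hD2⟩ := Finset.mem_filter.1 hy
        exact ⟨hD2, (hS.q y hD1).2⟩
      have e2 : ∑ y ∈ S.filter (fun y : IX K => ¬ X / 4 ≤ (y.1 : ℝ) * (y.2.1 : ℝ) ^ 2),
          (‖F y (1 / 2 + t y * Complex.I)‖ / (1 + |t y| + |(y.2.2.1 : ℝ)|) ^ A) ^ 4 ≤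
          C1 * X ^ (3 / 2 + ε) / 2 := by
        by_cases hX4 : X < 4
        · have hempty : S.filter (fun y : IX K => ¬ X / 4 ≤ (y.1 : ℝ) * (y.2.1 : ℝ) ^ 2) = ∅ := by
            apply Finset.filter_eq_empty_iff.2
            intro y hy hcon
            have hpos := level_pos hS y hy
            apply hcon
            linarith
          rw [hempty, Finset.sum_empty]
          positivity
        · push Not at hX4
          have hX' : 1 ≤ X / 4 := by linarith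
          have h := ih (X / 4) K σ
            (S.filter (fun y : IX K => ¬ X / 4 ≤ (y.1 : ℝ) * (y.2.1 : ℝ) ^ 2)) F t hX' (by
            rw [pow_succ] at hXm
            linarith) (by
            refine fam_sub hS (fun y hy => (Finset.mem_filter.1 hy).1) fun y hy => ?_
            obtain ⟨hD1, hD2⟩ := Finset.mem_filter.1 hy
            push Not at hD2
            exact ⟨(hS.q y hD1).1, hD2.le⟩)
          refine h.trans ?_
          rw [Real.div_rpow hX0.le (by norm_num)]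
          have h4 : (4 : ℝ) ≤ 4 ^ (3 / 2 + ε) := by
            calc (4 : ℝ) = 4 ^ (1 : ℝ) := (Real.rpow_one 4).symm
              _ ≤ 4 ^ (3 / 2 + ε) := Real.rpow_le_rpow_of_exponent_le (by norm_num) (by linarith)
          have h5 : X ^ (3 / 2 + ε) / 4 ^ (3 / 2 + ε) ≤ X ^ (3 / 2 + ε) / 4 :=
            div_le_div_of_nonneg_left hXp (by norm_num) h4
          have h6 := mul_le_mul_of_nonneg_left h5 (by positivity : (0 : ℝ) ≤ 2 * C1)
          linarith
      have h7 : 0 ≤ C1 * X ^ (3 / 2 + ε) := mul_nonneg hC1.le hXp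
      linarith
  intro X K _ _ σ S F t hX hS
  obtain ⟨m, hm⟩ := pow_unbounded_of_one_lt X (by norm_num : (1 : ℝ) < 4)
  exact key m X K σ S F t hX hm.le hS

end Pool.Agent.H69.FC
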