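import Pool.Agent.H9.FCM.QF1

/-! Module QF2 of board fc_modules (MP_00464d_lc). -/

set_option autoImplicit false

namespace Pool.Agent.H69.FC

open Pool.Agent.H9.FC Pool.Agent.H9.FCM.QF1 Set BSet

variable {B : Type} [CompleteBooleanAlgebra B]

theorem inf_least_le {U : B} {c c' : ℕ → ℕ → B} (h1 : ∀ n m, U ⊓ c n m ≤ c' n m)
    (h2 : ∀ n m, U ⊓ c' n m ≤ c n m) (n m : ℕ) : U ⊓ least c n m ≤ least c' n m := by
  have hc : ∀ k, U ⊓ (c n k)ᶜ ≤ (c' n k)ᶜ := by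
    intro k
    rw [le_compl_iff_disjoint_right, disjoint_iff_inf_le]
    calc U ⊓ (c n k)ᶜ ⊓ c' n k = (U ⊓ c' n k) ⊓ (c n k)ᶜ := by
          rw [inf_assoc, inf_comm (c n k)ᶜ, ← inf_assoc]
      _ ≤ c n k ⊓ (c n k)ᶜ := inf_le_inf_right _ (h2 n k)
      _ ≤ ⊥ := by rw [inf_compl_self]
  unfold least
  rw [inf_sup_left]
  refine sup_le_sup ?_ ?_
  · refine le_inf ?_ (le_iInf fun k => ?_)
    · exact (inf_le_inf_left _ inf_le_left).trans (h1 n m)
    · exact (inf_le_inf_left _ (inf_le_right.trans (iInf_le _ k))).trans (hc k)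
  · split_ifs with hm
    · exact le_iInf fun k => (inf_le_inf_left _ (iInf_le _ k)).trans (hc k)
    · rw [inf_bot_eq]

theorem inf_inb_le {p : Par} {U : B} {a a' : ℕ → ℕ → B} (h : ∀ n m, U ⊓ a n m ≤ a' n m)
    (τ : ℕ → Finset ℕ → B) (i : ℕ) : U ⊓ inb p a τ i ≤ inb p a' τ i := by
  unfold inb
  rw [inf_iSup_eq]
  refine iSup_mono fun c => ?_
  refine le_inf (inf_le_right.trans inf_le_left) (le_iInf fun j => ?_)
  exact (inf_le_inf_left _ (inf_le_right.trans (iInf_le _ j))).trans (h _ _)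

theorem inf_cov_le {p : Par} {U : B} {a a' : ℕ → ℕ → B} (h : ∀ n m, U ⊓ a n m ≤ a' n m)
    (τ : ℕ → Finset ℕ → B) (m : ℕ) : U ⊓ cov p a τ m ≤ cov p a' τ m := by
  unfold cov
  refine le_iInf fun i => le_iInf fun hi => ?_
  exact (inf_le_inf_left _ ((iInf_le _ i).trans (iInf_le _ hi))).trans (inf_inb_le h τ i)

theorem bop_congr (hNUM : T_NUM) (w x z : BSet B) :
    beq w x ≤ beq (bop w z) (bop x z) := by
  rw [(hNUM B).2.2.2.1, beq_refl, inf_top_eq]

/-- the value of a function at `w = x` does not depend on the choice -/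
theorem inf_gval_le (hNUM : T_NUM) {g0 w0 z0 : BSet B} {N : B} {x : ℕ → ℕ}
    (hN : ∀ z', nfun g0 (bgr x) z0 z' ≤ N) (n m : ℕ) :
    (beq w0 (bgr x) ⊓ (bmem (bop w0 z0) g0 ⊓ Nᶜ)) ⊓ gval g0 x n m ≤ rv z0 n m := by
  have hu : beq w0 (bgr x) ⊓ (bmem (bop w0 z0) g0 ⊓ Nᶜ) ≤ bmem (bop (bgr x) z0) g0 ⊓ Nᶜ := by
    rw [← inf_assoc]
    refine inf_le_inf_right _ ?_
    exact (inf_le_inf_right _ (bop_congr hNUM w0 (bgr x) z0)).trans (bmem_congr_left _ _ _)
  refine (inf_le_inf_right _ hu).trans ?_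
  unfold gval
  rw [inf_iSup_eq]
  refine iSup_le fun z' => ?_
  have h1 : bmem (bop (bgr x) z0) g0 ⊓ Nᶜ ⊓ bmem (bop (bgr x) z') g0 ≤ beq z0 z' := by
    have h2 : bmem (bop (bgr x) z0) g0 ⊓ Nᶜ ⊓ bmem (bop (bgr x) z') g0 ⊓ (beq z0 z')ᶜ ≤ ⊥ := by
      calc bmem (bop (bgr x) z0) g0 ⊓ Nᶜ ⊓ bmem (bop (bgr x) z') g0 ⊓ (beq z0 z')ᶜ
          ≤ N ⊓ Nᶜ := by
            refine le_inf ?_ ?_
            · refine le_trans ?_ (hN z')
              unfold nfun
              exact inf_le_inf_right _ (inf_le_inf_right _ inf_le_left)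
            · exact inf_le_left.trans (inf_le_left.trans inf_le_right)
        _ = ⊥ := inf_compl_self _
    rw [← disjoint_iff_inf_le, disjoint_compl_right_iff] at h2
    exact h2
  calc bmem (bop (bgr x) z0) g0 ⊓ Nᶜ ⊓ (bmem (bop (bgr x) z') g0 ⊓ rv z' n m)
      = (bmem (bop (bgr x) z0) g0 ⊓ Nᶜ ⊓ bmem (bop (bgr x) z') g0) ⊓ rv z' n m := by
        rw [inf_assoc (bmem (bop (bgr x) z0) g0 ⊓ Nᶜ)]
    _ ≤ beq z0 z' ⊓ rv z' n m := inf_le_inf_right _ h1
    _ ≤ rv z0 n m := by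
        rw [beq_symm]
        exact bmem_congr_right _ _ _

theorem inf_rv_le (hNUM : T_NUM) {g0 w0 z0 : BSet B} {N : B} {x : ℕ → ℕ} (n m : ℕ) :
    (beq w0 (bgr x) ⊓ (bmem (bop w0 z0) g0 ⊓ Nᶜ)) ⊓ rv z0 n m ≤ gval g0 x n m := by
  refine le_trans ?_ (le_iSup _ z0)
  refine inf_le_inf_right _ ?_
  refine (inf_le_inf_left _ inf_le_left).trans ?_
  exact (inf_le_inf_right _ (bop_congr hNUM w0 (bgr x) z0)).trans (bmem_congr_left _ _ _)

theorem bl_succ (p : Par) (i : ℕ) : bl p (i + 1) = bl p i + p.ell i := by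
  unfold bl
  rw [Finset.sum_range_succ]

/-- The claim about the join. -/
theorem join_le (hNUM : T_NUM) {p : Par} {g0 w0 z0 : BSet B} {N : B}
    (hN : ∀ a c c', nfun g0 a c c' ≤ N) {τ : ℕ → Finset ℕ → B}
    (hcov : ∀ x : ℕ → ℕ, (∀ k, x k < p.b k) → (⨆ m, cov p (least (gval g0 x)) τ m) = ⊤) :
    bmem w0 (bfam p.b) ⊓ (bmem (bop w0 z0) g0 ⊓ Nᶜ) ≤ ⨆ m, cov p (least (rv z0)) τ m := by
  rw [mem_bfam, iSup_inf_eq]
  refine iSup_le fun x => ?_
  set U : B := beq w0 (bgr x.1) ⊓ (bmem (bop w0 z0) g0 ⊓ Nᶜ) with hU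
  have h1 : U = U ⊓ ⨆ m, cov p (least (gval g0 x.1)) τ m := by
    rw [hcov x.1 x.2, inf_top_eq]
  rw [h1, inf_iSup_eq]
  refine iSup_mono fun m => inf_cov_le (fun n m => inf_least_le (fun n m => ?_) (fun n m => ?_) n m)
    τ m
  · exact inf_gval_le hNUM (N := N) (fun z' => hN _ _ _) n m
  · exact inf_rv_le hNUM n m

/-- The block of `x` is in the slalom. -/
theorem block_mem (hLST : T_LST) {p : Par} (M : Gen B) {τ : ℕ → Finset ℕ → B}
    (hpart : ∀ i, IsPart (τ i)) {A : ℕ → Finset ℕ} (hA : ∀ i, τ i (A i) ∈ M.G)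
    {z0 : BSet B} {x : ℕ → ℕ} (hx : ∀ n, least (rv z0) n (x n) ∈ M.G) {i : ℕ}
    (hi : inb p (least (rv z0)) τ i ∈ M.G) (ρ : List ℕ) (hρ : ρ.length = p.ell i)
    (hρx : ∀ j < p.ell i, ρ.getD j 0 = x (bl p i + j)) : cod ρ ∈ A i := by
  by_contra hcon
  have hI : (⨅ j : Fin (p.ell i), least (rv z0) (bl p i + j) (x (bl p i + j))) ∈ M.G :=
    finInf' M _ fun j => hx _
  have hall := M.inf_mem hi (M.inf_mem (hA i) hI)
  have key : inb p (least (rv z0)) τ i ⊓ (τ i (A i) ⊓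
      ⨅ j : Fin (p.ell i), least (rv z0) (bl p i + j) (x (bl p i + j))) ≤ ⊥ := by
    unfold inb
    rw [iSup_inf_eq]
    refine iSup_le ?_
    rintro ⟨⟨A', ρ'⟩, hlen, hmem⟩
    dsimp only at hlen hmem ⊢
    by_cases hAA : A' = A i
    swap
    · have h1 := (hpart i).2 A' (A i) hAA
      refine le_trans ?_ h1.le
      exact le_inf (inf_le_left.trans inf_le_left) (inf_le_right.trans inf_le_left)
    by_cases hρ' : ∀ j < ρ'.length, ρ'.getD j 0 = x (bl p i + j)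
    · exfalso
      apply hcon
      have : ρ = ρ' := by
        refine List.ext_getElem (by rw [hρ, hlen]) fun j h1 h2 => ?_
        have e1 := hρx j (by rw [← hρ]; exact h1)
        have e2 := hρ' j h2
        rw [List.getD_eq_getElem _ _ h1] at e1
        rw [List.getD_eq_getElem _ _ h2] at e2
        rw [e1, e2]
      rw [this, ← hAA]
      exact hmem
    · push Not at hρ'
      obtain ⟨j, hj, hne⟩ := hρ'
      have h1 := (hLST B (rv z0) (bl p i + j)).2 (ρ'.getD j 0) (x (bl p i + j)) hne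
      refine le_trans ?_ h1.le
      refine le_inf (inf_le_left.trans (inf_le_right.trans ?_))
        (inf_le_right.trans (inf_le_right.trans ?_))
      · exact iInf_le (fun j : Fin ρ'.length => least (rv z0) (bl p i + j) (ρ'.getD j 0)) ⟨j, hj⟩
      · exact iInf_le (fun j : Fin (p.ell i) => least (rv z0) (bl p i + j) (x (bl p i + j)))
          ⟨j, by rw [hlen] at hj; exact hj⟩
  exact M.bot_not_mem (M.up hall key)

theorem pf_QF2 (hNUM : T_NUM) (hQN : T_QN) (hQC : T_QC) (hLST : T_LST) (hTRE : T_TRE)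
    (hTBV : T_TBV) : T_QF2 := by
  intro p B _ M τ fw fz fz' hF hn hp hX hnf hpart hleg hcov hj hj2 A hA hg
  obtain ⟨g, hfun, hcover⟩ := hg
  obtain ⟨g0, rfl⟩ := M.cl_surj g
  obtain ⟨A0, hA0, hA0G, htB⟩ := hTBV p B M (τ g0.1) (hpart g0.1) (hleg g0.1)
  obtain ⟨hX1, hX2, hX3, hX4⟩ := hX g0.1 g0.2
  refine ⟨tA p A0, ⟨M.cl ⟨bfn (tB p (τ g0.1)), hX1⟩, ?_⟩, fun m => hTRE p A0 hA0 m, ?_⟩
  · refine (hQC _ M hn hp _ _).2 ⟨fun n m => ?_, fun t h => ?_⟩
    · show rv (bfn (tB p (τ g0.1))) n m ∈ M.G ↔ m = tA p A0 n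
      rw [(hNUM B).2.2.2.2.2.2.1]
      exact htB n m
    · rw [(hNUM B).2.2.2.2.2.2.2.1] at h
      exact hj t.1 t.2 (M.up h (iSup_mono fun q => inf_le_right))
  · intro z x hz hx
    obtain ⟨w, t, hw, ht, htg⟩ := hcover z hz
    obtain ⟨z0, rfl⟩ := M.cl_surj z
    obtain ⟨w0, rfl⟩ := M.cl_surj w
    rw [(hQN B M hn hp).2 t w0 z0] at ht
    subst ht
    have h1 : bmem (bop w0.1 z0.1) g0.1 ∈ M.G := htg
    have h2 : bmem w0.1 (bfam p.b) ∈ M.G := hw
    -- functionality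
    have h3 : (nfun g0.1 (fw g0.1) (fz g0.1) (fz' g0.1))ᶜ ∈ M.G := by
      rw [compl_mem_iff]
      intro h
      unfold nfun at h
      have k1 := M.up h (inf_le_left.trans inf_le_left)
      have k2 := M.up h (inf_le_left.trans inf_le_right)
      have k3 := M.up h inf_le_right
      rw [compl_mem_iff] at k3
      apply k3
      have k4 := hfun (M.cl ⟨fw g0.1, hX2⟩) (M.cl ⟨fz g0.1, hX3⟩) (M.cl ⟨fz' g0.1, hX4⟩) _ _
        (((hQN B M hn hp).2 _ ⟨fw g0.1, hX2⟩ ⟨fz g0.1, hX3⟩).2 rfl)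
        (((hQN B M hn hp).2 _ ⟨fw g0.1, hX2⟩ ⟨fz' g0.1, hX4⟩).2 rfl) k1 k2
      exact (M.cl_eq _ _).1 k4
    have h4 := M.up (M.inf_mem h2 (M.inf_mem h1 h3))
      (join_le hNUM (p := p) (τ := τ g0.1) (hnf g0.1) (hcov g0.1))
    obtain ⟨m, hm⟩ := hj2 g0.1 g0.2 z0.1 z0.2 h4
    refine ⟨m, fun n => ?_⟩
    have hrv := ((hQC _ M hn hp _ _).1 hx).1
    have hlv : ∀ k, least (rv z0.1) k (x k) ∈ M.G := fun k =>
      least_mem M _ k (x k) ((hrv k (x k)).2 rfl) fun l hl hl' => (ne_of_lt hl) ((hrv k l).1 hl')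
    show tA p A0 (Nat.pair m (Encodable.encode (List.ofFn fun i : Fin n => x i))) = 1
    unfold tA
    rw [if_pos]
    refine ⟨List.ofFn fun i : Fin n => x i, ?_, ?_⟩
    · rw [Nat.unpair_pair]
      exact Encodable.encodek _
    · rw [Nat.unpair_pair]
      intro i hmi hlen
      dsimp only at hmi
      rw [List.length_ofFn, bl_succ] at hlen
      have hi : inb p (least (rv z0.1)) (τ g0.1) i ∈ M.G :=
        M.up hm ((iInf_le _ i).trans (iInf_le _ hmi))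
      refine block_mem hLST M (hpart g0.1) hA0G hlv hi _ ?_ ?_
      · rw [List.length_take, List.length_drop, List.length_ofFn]
        omega
      · intro j hjl
        rw [List.getD_eq_getElem]
        · rw [List.getElem_take, List.getElem_drop, List.getElem_ofFn]
        · rw [List.length_take, List.length_drop, List.length_ofFn]
          omega

end Pool.Agent.H69.FC
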